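import Pool.Agent.Lib.SVY.Main
import Pool.Agent.Lib.SVY.CodesP
import Pool.Agent.Lib.SVW.FactsP
import Pool.Agent.Lib.SVT.Rot

/-!
# (a:b)-colourings, a/b ≥ 7/2, of planar graphs without 4- and 5-cycles

Let `G` be a finite planar graph with no cycle of length 4 or 5. Then for all `a`, `b` with
`a/b ≥ 7/2` every vertex can be given `b` of `a` colours such that adjacent vertices get disjoint
sets. So the strong fractional chromatic number (and the fractional chromatic number) of `G` is at
most `7/2`.
-/

set_option autoImplicit false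
set_option linter.style.haveILetI false

namespace Pool.Agent.Results.MP_0229a2_co.SevenTwo

/-- The reversal of the darts (oriented edges) of a simple graph. -/
def flipDart {V : Type} (H : SimpleGraph V) : Equiv.Perm H.Dart :=
  Function.Involutive.toPerm SimpleGraph.Dart.symm SimpleGraph.Dart.symm_involutive

/-- The connected graph `H` has a planar rotation system (the standard combinatorial description
of an embedding in the sphere): a permutation `σ` of its darts whose cycles are exactly the sets
of darts with the same starting vertex, such that `#V + #faces = #E + 2`, the faces being the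
cycles of `σ * flipDart H`. -/
def SphereRotation {V : Type} (H : SimpleGraph V) : Prop :=
  H.Connected ∧ ∃ σ : Equiv.Perm H.Dart,
    (∀ d e : H.Dart, d.fst = e.fst ↔ σ.SameCycle d e) ∧
    Nat.card V + Nat.card (Quotient (Equiv.Perm.SameCycle.setoid (σ * flipDart H))) =
      Nat.card H.edgeSet + 2

/-- Planarity of a finite simple graph: it has no edge, or it is a spanning subgraph of a
connected graph with a planar rotation system. -/
def Planar {V : Type} (G : SimpleGraph V) : Prop :=
  G = ⊥ ∨ ∃ H : SimpleGraph V, G ≤ H ∧ SphereRotation H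

theorem result (V : Type) [Finite V] (G : SimpleGraph V) (hG : Planar G)
    (h45 : ∀ (v : V) (c : G.Walk v v), c.IsCycle → c.length ≠ 4 ∧ c.length ≠ 5)
    (a b : ℕ) (hab : 7 * b ≤ 2 * a) :
    ∃ φ : V → Finset (Fin a), (∀ v, (φ v).card = b) ∧
      ∀ u v, G.Adj u v → Disjoint (φ u) (φ v) := by
  classical
  haveI := Fintype.ofFinite V
  have hML : Pool.Agent.Lib.SVT.ML (Pool.Agent.Lib.SVT.edg G Finset.univ) := by
    rcases hG with rfl | ⟨H, hGH, hconn, σ, hσ, heul⟩
    · refine ⟨∅, by simp, by simp, fun c _ => ⟨fun _ => 0, fun x y h => ?_⟩⟩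
      exact absurd (Pool.Agent.Lib.SVT.mem_edg'.1 h).1 (by simp)
    · have hML : Pool.Agent.Lib.SVT.ML (Pool.Agent.Lib.SVT.edg H Finset.univ) :=
        Pool.Agent.Lib.SVT.ML_of_rot H hconn σ hσ heul
      refine hML.mono fun e he => ?_
      rw [Pool.Agent.Lib.SVT.mem_edg] at he ⊢
      exact ⟨SimpleGraph.edgeSet_mono hGH he.1, fun v _ => Finset.mem_univ v⟩
  have h4 : Pool.Agent.Lib.SVT.NoC4 G := by
    intro a b c d hac hbd h1 h2 h3 h4
    have n1 := h1.ne
    have n2 := h2.ne
    have n3 := h3.ne
    have n4 := h4.ne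
    refine (h45 a (.cons h1 (.cons h2 (.cons h3 (.cons h4 .nil)))) ?_).1 (by simp)
    rw [SimpleGraph.Walk.cons_isCycle_iff]
    simp [SimpleGraph.Walk.cons_isPath_iff, n1, n2, n3, n4, hac, hbd, n1.symm, n2.symm, n3.symm,
      n4.symm, hac.symm, hbd.symm]
  have h5 : Pool.Agent.Lib.SVT.NoC5 G := by
    intro a b c d e p1 p2 p3 p4 p5 h1 h2 h3 h4 h5
    have n1 := h1.ne
    have n2 := h2.ne
    have n3 := h3.ne
    have n4 := h4.ne
    have n5 := h5.ne
    refine (h45 a (.cons h1 (.cons h2 (.cons h3 (.cons h4 (.cons h5 .nil))))) ?_).2 (by simp)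
    rw [SimpleGraph.Walk.cons_isCycle_iff]
    simp [SimpleGraph.Walk.cons_isPath_iff, n1, n2, n3, n4, n5, n1.symm, n2.symm, n3.symm,
      n4.symm, n5.symm, p1, p2, p3, p4, p5, p1.symm, p2.symm, p3.symm, p4.symm, p5.symm]
  exact Pool.Agent.Lib.SVY.strong_of (fun G B m F h hF => Pool.Agent.Lib.SVY.lf h hF)
    (fun G B m F h hF => Pool.Agent.Lib.SVY.cf h hF) hML h4 h5 hab

end Pool.Agent.Results.MP_0229a2_co.SevenTwo
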